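import Pool.Agent.Q88.Scott.Act
import Mathlib.LinearAlgebra.Matrix.ToLin
import Mathlib.LinearAlgebra.Finsupp.LinearCombination
import Mathlib.GroupTheory.SemidirectProduct
import Mathlib.GroupTheory.GroupAction.Quotient
import Mathlib.GroupTheory.Perm.Fin
import Mathlib.SetTheory.Cardinal.Finite

/-! # Core-free, coset equivalent, non-isomorphic subgroups

There are a finite group and two core-free subgroups which are `ℤ`-coset equivalent but not
isomorphic. -/

namespace Pool.Agent.Results.MP_997916_al.CoreFreeScott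

open Finset

/-- A subgroup is core-free if it contains no nontrivial normal subgroup of the group. -/
def CoreFree {G : Type} [Group G] (H : Subgroup G) : Prop :=
  ∀ N : Subgroup G, N.Normal → N ≤ H → N = ⊥

/-- Two subgroups `G₁`, `G₂` of `G` are `ℤ`-coset equivalent: there is an isomorphism of abelian
groups between the free abelian groups on the left cosets which commutes with the action of `G` by
left multiplication. -/
def CosetEquivalent {G : Type} [Group G] (G₁ G₂ : Subgroup G) : Prop :=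
  ∃ e : ((G ⧸ G₁) →₀ ℤ) ≃ₗ[ℤ] ((G ⧸ G₂) →₀ ℤ), ∀ (g : G) (v : (G ⧸ G₁) →₀ ℤ),
    e (Finsupp.mapDomain (fun c => g • c) v) = Finsupp.mapDomain (fun c => g • c) (e v)

section Generic

variable {Γ Ω₁ Ω₂ : Type} [Group Γ] [Fintype Ω₁] [DecidableEq Ω₁] [Fintype Ω₂] [DecidableEq Ω₂]
  [MulAction Γ Ω₁] [MulAction Γ Ω₂]

theorem mapDomain_smul_apply {Ω : Type} [MulAction Γ Ω] (g : Γ) (v : Ω →₀ ℤ) (x : Ω) :
    Finsupp.mapDomain (fun c => g • c) v x = v (g⁻¹ • x) := by
  have h : Function.Injective (fun c : Ω => g • c) := MulAction.injective g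
  have h2 := Finsupp.mapDomain_apply h v (g⁻¹ • x)
  simpa using h2

theorem equiv_of_matrix (A : Matrix Ω₂ Ω₁ ℤ) (B : Matrix Ω₁ Ω₂ ℤ) (hAB : A * B = 1)
    (hBA : B * A = 1) (hA : ∀ (g : Γ) y x, A (g • y) (g • x) = A y x) :
    ∃ e : (Ω₁ →₀ ℤ) ≃ₗ[ℤ] (Ω₂ →₀ ℤ), ∀ (g : Γ) (v : Ω₁ →₀ ℤ),
      e (Finsupp.mapDomain (fun c => g • c) v) = Finsupp.mapDomain (fun c => g • c) (e v) := by
  refine ⟨(Finsupp.linearEquivFunOnFinite ℤ ℤ Ω₁) ≪≫ₗ (Matrix.toLin'OfInv hBA hAB) ≪≫ₗ
    (Finsupp.linearEquivFunOnFinite ℤ ℤ Ω₂).symm, ?_⟩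
  intro g v
  ext y
  rw [mapDomain_smul_apply]
  change (Matrix.toLin' A) (fun x => (Finsupp.mapDomain (fun c => g • c) v) x) y =
    (Matrix.toLin' A) (fun x => v x) (g⁻¹ • y)
  simp only [Matrix.toLin'_apply, Matrix.mulVec, dotProduct]
  rw [← Equiv.sum_comp (MulAction.toPerm g)]
  refine Finset.sum_congr rfl fun x _ => ?_
  rw [mapDomain_smul_apply, MulAction.toPerm_apply, inv_smul_smul]
  have := hA g (g⁻¹ • y) x
  rw [smul_inv_smul] at this
  rw [this]

theorem cosetEquivalent_of_actions (ω₁ : Ω₁) (ω₂ : Ω₂) (h₁ : ∀ x, ∃ g : Γ, g • ω₁ = x)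
    (h₂ : ∀ x, ∃ g : Γ, g • ω₂ = x) (A : Matrix Ω₂ Ω₁ ℤ) (B : Matrix Ω₁ Ω₂ ℤ) (hAB : A * B = 1)
    (hBA : B * A = 1) (hA : ∀ (g : Γ) y x, A (g • y) (g • x) = A y x) :
    CosetEquivalent (MulAction.stabilizer Γ ω₁) (MulAction.stabilizer Γ ω₂) := by
  obtain ⟨e, he⟩ := equiv_of_matrix A B hAB hBA hA
  have key : ∀ {Ω : Type} [MulAction Γ Ω] (ω : Ω), (∀ x, ∃ g : Γ, g • ω = x) →
      ∃ f : (Γ ⧸ MulAction.stabilizer Γ ω) ≃ Ω, ∀ (g : Γ) q, f (g • q) = g • f q := by
    intro Ω _ ω h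
    refine ⟨Equiv.ofBijective (MulAction.ofQuotientStabilizer Γ ω)
      ⟨MulAction.injective_ofQuotientStabilizer Γ ω, ?_⟩, ?_⟩
    · intro x
      obtain ⟨g, hg⟩ := h x
      exact ⟨QuotientGroup.mk g, hg⟩
    · intro g q
      exact MulAction.ofQuotientStabilizer_smul Γ ω g q
  obtain ⟨f₁, hf₁⟩ := key ω₁ h₁
  obtain ⟨f₂, hf₂⟩ := key ω₂ h₂
  refine ⟨(Finsupp.domLCongr f₁) ≪≫ₗ e ≪≫ₗ (Finsupp.domLCongr f₂).symm, ?_⟩
  intro g v
  have hc : ∀ {Ω : Type} [MulAction Γ Ω] (ω : Ω) (f : (Γ ⧸ MulAction.stabilizer Γ ω) ≃ Ω),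
      (∀ (g : Γ) q, f (g • q) = g • f q) → ∀ u : (Γ ⧸ MulAction.stabilizer Γ ω) →₀ ℤ,
      (Finsupp.domLCongr f : _ ≃ₗ[ℤ] _) (Finsupp.mapDomain (fun c => g • c) u) =
        Finsupp.mapDomain (fun c => g • c) ((Finsupp.domLCongr f : _ ≃ₗ[ℤ] _) u) := by
    intro Ω _ ω f hf u
    rw [Finsupp.domLCongr_apply, Finsupp.domCongr_apply, Finsupp.domLCongr_apply,
      Finsupp.domCongr_apply, Finsupp.equivMapDomain_eq_mapDomain,
      Finsupp.equivMapDomain_eq_mapDomain, ← Finsupp.mapDomain_comp, ← Finsupp.mapDomain_comp]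
    congr 1
    funext q
    exact hf g q
  apply (Finsupp.domLCongr f₂ : _ ≃ₗ[ℤ] _).injective
  rw [hc ω₂ f₂ hf₂]
  simp only [LinearEquiv.trans_apply, LinearEquiv.apply_symm_apply]
  rw [hc ω₁ f₁ hf₁, he]

/-- The set `W × X` on which `W × W` acts by `(a, b) (w, x) = (a w b⁻¹, b x)`. -/
@[ext] structure Om {W X : Type} [Group W] (π : W →* Equiv.Perm X) where
  /-- the first coordinate -/
  fst : W
  /-- the second coordinate -/
  snd : X

instance {W X : Type} [Group W] (π : W →* Equiv.Perm X) : MulAction (W × W) (Om π) where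
  smul g p := ⟨g.1 * p.fst * g.2⁻¹, π g.2 p.snd⟩
  one_smul p := by
    change (⟨(1 : W) * p.fst * (1 : W)⁻¹, π 1 p.snd⟩ : Om π) = p
    ext <;> simp
  mul_smul g h p := by
    change (⟨(g.1 * h.1) * p.fst * (g.2 * h.2)⁻¹, π (g.2 * h.2) p.snd⟩ : Om π) =
      ⟨g.1 * (h.1 * p.fst * h.2⁻¹) * g.2⁻¹, π g.2 (π h.2 p.snd)⟩
    ext <;> simp [mul_assoc]

theorem Om_smul {W X : Type} [Group W] (π : W →* Equiv.Perm X) (g : W × W) (p : Om π) :
    g • p = ⟨g.1 * p.fst * g.2⁻¹, π g.2 p.snd⟩ := rfl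

/-- the pairs -/
def omEquiv {W X : Type} [Group W] (π : W →* Equiv.Perm X) : Om π ≃ W × X where
  toFun p := (p.fst, p.snd)
  invFun q := ⟨q.1, q.2⟩
  left_inv _ := rfl
  right_inv _ := rfl

/-- the product of matrices of the form `1 ⊗ A` -/
theorem block_mul {W X Y : Type} [Group W] [Fintype W] [DecidableEq W] [Fintype X] [DecidableEq X]
    [Fintype Y] [DecidableEq Y] (π : W →* Equiv.Perm X) (ρ : W →* Equiv.Perm Y)
    [Fintype (Om π)] [DecidableEq (Om ρ)] (A : Matrix Y X ℤ)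
    (B : Matrix X Y ℤ) (hAB : A * B = 1) :
    (Matrix.of fun (q : Om ρ) (p : Om π) => if q.fst = p.fst then A q.snd p.snd else 0) *
      (Matrix.of fun (p : Om π) (q : Om ρ) => if p.fst = q.fst then B p.snd q.snd else 0) = 1 := by
  ext q q'
  rw [Matrix.mul_apply]
  simp only [Matrix.of_apply]
  have hsum : ∑ p : Om π, (if q.fst = p.fst then A q.snd p.snd else 0) *
      (if p.fst = q'.fst then B p.snd q'.snd else 0) =
      ∑ p : W × X, (if q.fst = p.1 then A q.snd p.2 else 0) *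
        (if p.1 = q'.fst then B p.2 q'.snd else 0) :=
    Fintype.sum_equiv (omEquiv π) _ _ (fun _ => rfl)
  refine hsum.trans ?_
  rw [Fintype.sum_prod_type, Finset.sum_eq_single q.fst]
  · have h1 := congrFun (congrFun hAB q.snd) q'.snd
    rw [Matrix.mul_apply] at h1
    by_cases h : q.fst = q'.fst
    · simp only [if_true, h]
      rw [h1, Matrix.one_apply, Matrix.one_apply]
      congr 1
      apply propext
      exact ⟨fun h2 => Om.ext h h2, fun h2 => congrArg Om.snd h2⟩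
    · simp only [h, if_false, mul_zero, Finset.sum_const_zero]
      rw [Matrix.one_apply_ne]
      exact fun h2 => h (congrArg Om.fst h2)
  · intro w _ hw
    simp [Ne.symm hw]
  · intro h; exact absurd (Finset.mem_univ _) h

/-- Doubling: invariant unimodular matrices for `W` give coset equivalent subgroups of `W × W`. -/
theorem double {W X Y : Type} [Group W] [Finite W] [Fintype X] [DecidableEq X] [Fintype Y]
    [DecidableEq Y] (π : W →* Equiv.Perm X) (ρ : W →* Equiv.Perm Y) (x₀ : X) (y₀ : Y)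
    (hx : ∀ x, ∃ w, π w x₀ = x) (hy : ∀ y, ∃ w, ρ w y₀ = y) (A : Matrix Y X ℤ)
    (B : Matrix X Y ℤ) (hAB : A * B = 1) (hBA : B * A = 1)
    (hA : ∀ w y x, A (ρ w y) (π w x) = A y x) :
    CosetEquivalent (MulAction.stabilizer (W × W) (⟨1, x₀⟩ : Om π))
      (MulAction.stabilizer (W × W) (⟨1, y₀⟩ : Om ρ)) := by
  classical
  have := Fintype.ofFinite W
  have hfin : ∀ {Z : Type} [Fintype Z] (τ : W →* Equiv.Perm Z), Nonempty (Fintype (Om τ)) :=
    fun τ => ⟨Fintype.ofEquiv _ (omEquiv τ).symm⟩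
  obtain ⟨f1⟩ := hfin π
  obtain ⟨f2⟩ := hfin ρ
  have htr : ∀ {Z : Type} (τ : W →* Equiv.Perm Z) (z₀ : Z), (∀ z, ∃ w, τ w z₀ = z) →
      ∀ p : Om τ, ∃ g : W × W, g • (⟨1, z₀⟩ : Om τ) = p := by
    intro Z τ z₀ hz p
    obtain ⟨w, hw⟩ := hz p.snd
    refine ⟨(p.fst * w, w), ?_⟩
    rw [Om_smul]
    refine Om.ext ?_ hw
    simp
  refine cosetEquivalent_of_actions _ _ (htr π x₀ hx) (htr ρ y₀ hy)
    (Matrix.of fun (q : Om ρ) (p : Om π) => if q.fst = p.fst then A q.snd p.snd else 0)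
    (Matrix.of fun (p : Om π) (q : Om ρ) => if p.fst = q.fst then B p.snd q.snd else 0)
    (block_mul π ρ A B hAB) (block_mul ρ π B A hBA) ?_
  intro g q p
  simp only [Om_smul, Matrix.of_apply]
  by_cases h : q.fst = p.fst
  · rw [if_pos h, if_pos (by rw [h]), hA]
  · rw [if_neg h, if_neg]
    intro h2
    apply h
    simpa using h2

theorem double_coreFree {W X : Type} [Group W] (π : W →* Equiv.Perm X) (x₀ : X)
    (hZ : ∀ z : W, (∀ w, w * z = z * w) → z = 1) :
    CoreFree (MulAction.stabilizer (W × W) (⟨1, x₀⟩ : Om π)) := by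
  intro N hN hle
  have hmem : ∀ n ∈ N, n.1 = n.2 := by
    intro n hn
    have h1 := hle hn
    rw [MulAction.mem_stabilizer_iff, Om_smul] at h1
    have h2 : n.1 * 1 * n.2⁻¹ = 1 := congrArg Om.fst h1
    rw [mul_one] at h2
    exact mul_inv_eq_one.mp h2
  rw [Subgroup.eq_bot_iff_forall]
  intro n hn
  have h1 : n.1 = 1 := by
    apply hZ
    intro w
    have h2 := hmem _ (hN.conj_mem n hn (w, 1))
    have h3 : w * n.1 * w⁻¹ = n.2 := by simpa using h2
    rw [← hmem n hn] at h3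
    exact mul_inv_eq_iff_eq_mul.mp h3
  exact Prod.ext h1 ((hmem n hn).symm.trans h1)

/-- The stabilizer in the doubled action is isomorphic to the stabilizer in the original one. -/
def stabEquiv {W X : Type} [Group W] (π : W →* Equiv.Perm X) (x₀ : X) (P : Subgroup W)
    (hP : ∀ w, w ∈ P ↔ π w x₀ = x₀) :
    MulAction.stabilizer (W × W) (⟨1, x₀⟩ : Om π) ≃* P where
  toFun g := ⟨g.1.2, (hP _).mpr (congrArg Om.snd (MulAction.mem_stabilizer_iff.mp g.2))⟩
  invFun p := ⟨(p.1, p.1), by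
    rw [MulAction.mem_stabilizer_iff, Om_smul]
    refine Om.ext ?_ ((hP _).mp p.2)
    simp⟩
  left_inv g := by
    apply Subtype.ext
    have h1 := MulAction.mem_stabilizer_iff.mp g.2
    rw [Om_smul] at h1
    have h2 : g.1.1 * 1 * g.1.2⁻¹ = 1 := congrArg Om.fst h1
    rw [mul_one] at h2
    exact Prod.ext (mul_inv_eq_one.mp h2).symm rfl
  right_inv p := rfl
  map_mul' g h := rfl

end Generic

section Wreath

set_option linter.unusedSectionVars false

open SemidirectProduct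

variable {X : Type} [DecidableEq X] {G : Type} [Group G] (π : G →* Equiv.Perm X)

/-- `G` acting on the functions from `X` to the symmetric group of degree three -/
def phi : G →* MulAut (X → Equiv.Perm (Fin 3)) where
  toFun g :=
    { toFun := fun f x => f ((π g)⁻¹ x)
      invFun := fun f x => f (π g x)
      left_inv := fun f => by funext x; simp
      right_inv := fun f => by funext x; simp
      map_mul' := fun f h => rfl }
  map_one' := by
    ext f x
    simp
  map_mul' g h := by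
    ext f x
    simp

theorem phi_apply (g : G) (f : X → Equiv.Perm (Fin 3)) (x : X) :
    phi π g f x = f ((π g)⁻¹ x) := rfl

/-- the wreath product -/
abbrev Wr : Type := (X → Equiv.Perm (Fin 3)) ⋊[phi π] G

theorem conj_inl (w : Wr π) (f : X → Equiv.Perm (Fin 3)) :
    w * inl f * w⁻¹ = inl (w.left * phi π w.right f * w.left⁻¹) := by
  apply SemidirectProduct.ext
  · simp [mul_assoc]
  · simp

theorem phi_single (g : G) (x : X) (c : Equiv.Perm (Fin 3)) :
    phi π g (Pi.mulSingle x c) = Pi.mulSingle (π g x) c := by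
  funext y
  rw [phi_apply]
  by_cases h : y = π g x
  · subst h
    simp
  · rw [Pi.mulSingle_eq_of_ne h, Pi.mulSingle_eq_of_ne]
    intro h2
    apply h
    rw [← h2]
    simp

theorem conj_single (w : Wr π) (x : X) (c : Equiv.Perm (Fin 3)) :
    w * inl (Pi.mulSingle x c) * w⁻¹ =
      inl (Pi.mulSingle (π w.right x) (w.left (π w.right x) * c * (w.left (π w.right x))⁻¹)) := by
  rw [conj_inl, phi_single]
  congr 1
  funext y
  by_cases h : y = π w.right x
  · subst h
    simp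
  · simp [Pi.mulSingle_eq_of_ne h]

theorem S3_center : ∀ c : Equiv.Perm (Fin 3), (∀ d, d * c = c * d) → c = 1 := by
  decide +kernel

theorem S3_comm : ∀ c : Equiv.Perm (Fin 3), c ≠ 1 → ∃ d, (d * c * d⁻¹ * c⁻¹) ^ 2 ≠ 1 := by
  decide +kernel

theorem S3_ord : ∀ c : Equiv.Perm (Fin 3), c ^ 2 ≠ 1 → c ^ 3 = 1 := by
  decide +kernel

/-- An element acting on the base trivially by conjugation is trivial. -/
theorem eq_one_of_centralizes (hf : ∀ g, π g = 1 → g = 1) (w : Wr π)
    (h : ∀ f, w * inl f * w⁻¹ = inl f) : w = 1 := by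
  have h1 : π w.right = 1 := by
    ext x
    by_contra hne
    have h2 := h (Pi.mulSingle x (Equiv.swap 0 1))
    rw [conj_single] at h2
    have h3 := congrFun (inl_injective h2) x
    rw [Pi.mulSingle_eq_same, Pi.mulSingle_eq_of_ne] at h3
    · exact absurd h3 (by decide)
    · exact fun h4 => hne h4.symm
  have hr : w.right = 1 := hf _ h1
  have hl : w.left = 1 := by
    funext x
    apply S3_center
    intro d
    have h2 := h (Pi.mulSingle x d)
    rw [conj_single] at h2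
    have h3 := congrFun (inl_injective h2) x
    rw [h1] at h3
    simp only [Equiv.Perm.one_apply, Pi.mulSingle_eq_same] at h3
    exact (mul_inv_eq_iff_eq_mul.mp h3).symm
  exact SemidirectProduct.ext hl hr

theorem center_trivial (hf : ∀ g, π g = 1 → g = 1) (z : Wr π) (hz : ∀ w, w * z = z * w) :
    z = 1 := by
  apply eq_one_of_centralizes π hf
  intro f
  rw [← hz, mul_inv_cancel_right]

/-- The property distinguishing the two subgroups. -/
def HasNormalSix (P : Type) [Group P] : Prop :=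
  ∃ N : Subgroup P, N.Normal ∧ Nat.card N = 6

theorem HasNormalSix.congr {P Q : Type} [Group P] [Group Q] (e : P ≃* Q) (h : HasNormalSix P) :
    HasNormalSix Q := by
  obtain ⟨N, hN, hc⟩ := h
  refine ⟨N.map e.toMonoidHom, hN.map _ e.surjective, ?_⟩
  rw [← hc]
  exact Nat.card_congr (N.equivMapOfInjective e.toMonoidHom e.injective).symm.toEquiv

/-- If `P` has a fixed point on `X`, it has a normal subgroup of order six. -/
theorem hasNormalSix (P : Subgroup (Wr π)) (x₀ : X) (hP : ∀ w ∈ P, π w.right x₀ = x₀)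
    (hbase : ∀ f, (inl f : Wr π) ∈ P) : HasNormalSix P := by
  let ι : Equiv.Perm (Fin 3) →* P :=
    { toFun := fun c => ⟨inl (Pi.mulSingle x₀ c), hbase _⟩
      map_one' := by
        apply Subtype.ext
        simp
      map_mul' := fun c d => by
        apply Subtype.ext
        simp [Pi.mulSingle_mul] }
  have hinj : Function.Injective ι := by
    intro c d h
    have h1 := inl_injective (congrArg Subtype.val h)
    have h2 := congrFun h1 x₀
    simpa using h2
  refine ⟨ι.range, ⟨?_⟩, ?_⟩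
  · rintro _ ⟨c, rfl⟩ p
    refine ⟨(p : Wr π).left x₀ * c * ((p : Wr π).left x₀)⁻¹, ?_⟩
    apply Subtype.ext
    have := conj_single π (p : Wr π) x₀ c
    rw [hP _ p.2] at this
    exact this.symm
  · rw [Nat.card_congr (MonoidHom.ofInjective hinj).symm.toEquiv, Nat.card_eq_fintype_card,
      Fintype.card_perm, Fintype.card_fin]
    rfl

/-- If `P` has no fixed point on `X`, it has no normal subgroup of order six. -/
theorem not_hasNormalSix (hf : ∀ g, π g = 1 → g = 1) [Finite X] [Finite G] (P : Subgroup (Wr π))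
    (hP : ∀ x, ∃ w ∈ P, π w.right x ≠ x)
    (hbase : ∀ f, (inl f : Wr π) ∈ P) : ¬ HasNormalSix P := by
  rintro ⟨N, hN, hcard⟩
  have hfin : Finite N := Nat.finite_of_card_ne_zero (by omega)
  have hne : ∃ n ∈ N, n ≠ 1 := by
    by_contra hcon
    push Not at hcon
    have : N = ⊥ := (Subgroup.eq_bot_iff_forall N).mpr hcon
    rw [this] at hcard
    simp at hcard
  obtain ⟨n, hn, hn1⟩ := hne
  -- a nontrivial element of the base
  have h1 : ∃ f : X → Equiv.Perm (Fin 3), f ≠ 1 ∧ (⟨inl f, hbase f⟩ : P) ∈ N := by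
    by_contra hcon
    push Not at hcon
    apply hn1
    apply Subtype.ext
    apply eq_one_of_centralizes π hf
    intro f
    have h2 : n * (⟨inl f, hbase f⟩ : P) * n⁻¹ * (⟨inl f, hbase f⟩ : P)⁻¹ ∈ N := by
      have := N.mul_mem hn (hN.conj_mem _ (N.inv_mem hn) (⟨inl f, hbase f⟩ : P))
      simpa [mul_assoc] using this
    have h3 : n * (⟨inl f, hbase f⟩ : P) * n⁻¹ * (⟨inl f, hbase f⟩ : P)⁻¹ =
        ⟨inl ((n : Wr π).left * phi π (n : Wr π).right f * (n : Wr π).left⁻¹ * f⁻¹), hbase _⟩ := by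
      apply Subtype.ext
      have := conj_inl π (n : Wr π) f
      change (n : Wr π) * inl f * (n : Wr π)⁻¹ * (inl f)⁻¹ =
        inl ((n : Wr π).left * phi π (n : Wr π).right f * (n : Wr π).left⁻¹ * f⁻¹)
      rw [this, ← map_inv, ← map_mul]
    rw [h3] at h2
    have h4 : (n : Wr π).left * phi π (n : Wr π).right f * (n : Wr π).left⁻¹ * f⁻¹ = 1 := by
      by_contra h5
      exact hcon _ h5 h2
    rw [conj_inl, mul_inv_eq_one.mp h4]
  obtain ⟨f, hf1, hfN⟩ := h1
  obtain ⟨x, hx⟩ : ∃ x, f x ≠ 1 := by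
    by_contra hcon
    push Not at hcon
    exact hf1 (funext hcon)
  obtain ⟨d, hd⟩ := S3_comm (f x) hx
  -- an element of order three supported at `x`
  let r := d * f x * d⁻¹ * (f x)⁻¹
  have hr2 : r ^ 2 ≠ 1 := hd
  have hr3 : r ^ 3 = 1 := S3_ord r hr2
  have hsN : (⟨inl (Pi.mulSingle x r), hbase _⟩ : P) ∈ N := by
    have h2 := N.mul_mem (hN.conj_mem _ hfN (⟨inl (Pi.mulSingle x d), hbase _⟩ : P))
      (N.inv_mem hfN)
    have h3 : (⟨inl (Pi.mulSingle x d), hbase _⟩ : P) * ⟨inl f, hbase f⟩ *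
        (⟨inl (Pi.mulSingle x d), hbase _⟩ : P)⁻¹ * (⟨inl f, hbase f⟩ : P)⁻¹ =
        ⟨inl (Pi.mulSingle x r), hbase _⟩ := by
      apply Subtype.ext
      change (inl (Pi.mulSingle x d) : Wr π) * inl f * (inl (Pi.mulSingle x d))⁻¹ * (inl f)⁻¹ = _
      rw [← map_inv, ← map_inv, ← map_mul, ← map_mul, ← map_mul]
      congr 1
      funext y
      by_cases h : y = x
      · subst h
        simp [r]
      · simp [Pi.mulSingle_eq_of_ne h]
    rw [← h3]
    exact h2
  obtain ⟨w, hw, hwx⟩ := hP x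
  let y := π w.right x
  have hyx : y ≠ x := hwx
  let r' := w.left y * r * (w.left y)⁻¹
  have hr'2 : r' ^ 2 ≠ 1 := by
    intro h
    apply hr2
    have : r' ^ 2 = w.left y * r ^ 2 * (w.left y)⁻¹ := by
      simp only [r', pow_two]; group
    rw [this, mul_inv_eq_one] at h
    exact mul_left_cancel (a := w.left y) (by rw [h, mul_one])
  have hr'3 : r' ^ 3 = 1 := S3_ord r' hr'2
  have htN : (⟨inl (Pi.mulSingle y r'), hbase _⟩ : P) ∈ N := by
    have h2 := hN.conj_mem _ hsN (⟨w, hw⟩ : P)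
    have h3 : (⟨w, hw⟩ : P) * ⟨inl (Pi.mulSingle x r), hbase _⟩ * (⟨w, hw⟩ : P)⁻¹ =
        ⟨inl (Pi.mulSingle y r'), hbase _⟩ := by
      apply Subtype.ext
      exact conj_single π w x r
    rw [← h3]
    exact h2
  -- nine elements
  let F : Fin 3 × Fin 3 → N := fun p =>
    ⟨(⟨inl (Pi.mulSingle x r), hbase _⟩ : P) ^ (p.1 : ℕ) *
      (⟨inl (Pi.mulSingle y r'), hbase _⟩ : P) ^ (p.2 : ℕ),
      N.mul_mem (N.pow_mem hsN _) (N.pow_mem htN _)⟩
  have hF : Function.Injective F := by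
    have hpow : ∀ c : Equiv.Perm (Fin 3), c ^ 2 ≠ 1 → ∀ i j : Fin 3,
        c ^ (i : ℕ) = c ^ (j : ℕ) → i = j := by decide +kernel
    have hval : ∀ p : Fin 3 × Fin 3, ((F p : P) : Wr π) =
        inl (Pi.mulSingle x (r ^ (p.1 : ℕ)) * Pi.mulSingle y (r' ^ (p.2 : ℕ))) := by
      intro p
      change (inl (Pi.mulSingle x r) : Wr π) ^ (p.1 : ℕ) * inl (Pi.mulSingle y r') ^ (p.2 : ℕ) = _
      rw [← map_pow, ← map_pow, ← map_mul, Pi.mulSingle_pow, Pi.mulSingle_pow]
    intro p q hpq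
    have h2 : ((F p : P) : Wr π) = ((F q : P) : Wr π) := by rw [hpq]
    rw [hval, hval] at h2
    have h3 := inl_injective h2
    apply Prod.ext
    · have h4 := congrFun h3 x
      simp only [Pi.mul_apply, Pi.mulSingle_eq_same, Pi.mulSingle_eq_of_ne (Ne.symm hyx),
        mul_one] at h4
      exact hpow r hr2 _ _ h4
    · have h4 := congrFun h3 y
      simp only [Pi.mul_apply, Pi.mulSingle_eq_same, Pi.mulSingle_eq_of_ne hyx, one_mul] at h4
      exact hpow r' hr'2 _ _ h4
  have h9 := Nat.card_le_card_of_injective F hF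
  rw [hcard, Nat.card_eq_fintype_card, Fintype.card_prod, Fintype.card_fin] at h9
  omega

end Wreath

open Pool.Agent.Q88.Scott

/-- the first action of the automorphism group of the matrix -/
def act1 : G →* Equiv.Perm (Fin 203) := (MonoidHom.fst _ _).comp G.subtype

/-- the second action of the automorphism group of the matrix -/
def act2 : G →* Equiv.Perm (Fin 203) := (MonoidHom.snd _ _).comp G.subtype

/-- **Main theorem.**  There are a finite group and two core-free subgroups of it which are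
`ℤ`-coset equivalent but not isomorphic. -/
theorem result : ∃ (G : Type) (_ : Group G) (_ : Finite G) (G₁ G₂ : Subgroup G),
    CoreFree G₁ ∧ CoreFree G₂ ∧ CosetEquivalent G₁ G₂ ∧ IsEmpty (G₁ ≃* G₂) := by
  have hf : ∀ g, act1 g = 1 → g = 1 := fun g hg => faithful g hg
  have hfW : Finite (Wr act1) := Finite.of_equiv _ SemidirectProduct.equivProd.symm
  let ρ₁ : Wr act1 →* Equiv.Perm (Fin 203) := act1.comp SemidirectProduct.rightHom
  let ρ₂ : Wr act1 →* Equiv.Perm (Fin 203) := act2.comp SemidirectProduct.rightHom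
  refine ⟨Wr act1 × Wr act1, inferInstance, inferInstance,
    MulAction.stabilizer _ (⟨1, 0⟩ : Om ρ₁), MulAction.stabilizer _ (⟨1, 0⟩ : Om ρ₂),
    double_coreFree _ _ (center_trivial act1 hf), double_coreFree _ _ (center_trivial act1 hf),
    double ρ₁ ρ₂ 0 0 ?_ ?_ M N MN NM ?_, ⟨fun e => ?_⟩⟩
  · intro x
    obtain ⟨g, hg⟩ := trans1 x
    exact ⟨SemidirectProduct.inr g, hg⟩
  · intro x
    obtain ⟨g, hg⟩ := trans2 x
    exact ⟨SemidirectProduct.inr g, hg⟩
  · intro w y x
    exact w.right.2 y x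
  · let P₁ : Subgroup (Wr act1) := (MulAction.stabilizer (Equiv.Perm (Fin 203)) (0 : Fin 203)).comap ρ₁
    let P₂ : Subgroup (Wr act1) := (MulAction.stabilizer (Equiv.Perm (Fin 203)) (0 : Fin 203)).comap ρ₂
    have h1 : HasNormalSix P₁ := by
      refine hasNormalSix act1 P₁ 0 (fun w hw => hw) (fun f => ?_)
      change ρ₁ (SemidirectProduct.inl f) 0 = 0
      simp [ρ₁]
    have h2 : ¬ HasNormalSix P₂ := by
      refine not_hasNormalSix act1 hf P₂ (fun x => ?_) (fun f => ?_)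
      · obtain ⟨g, hg, hgx⟩ := no_fix x
        refine ⟨SemidirectProduct.inr g, ?_, ?_⟩
        · exact hg
        · exact hgx
      · change ρ₂ (SemidirectProduct.inl f) 0 = 0
        simp [ρ₂]
    exact h2 (h1.congr (((stabEquiv ρ₁ 0 P₁ (fun _ => Iff.rfl)).symm.trans e).trans
      (stabEquiv ρ₂ 0 P₂ (fun _ => Iff.rfl))))

end Pool.Agent.Results.MP_997916_al.CoreFreeScott
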